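import Pool.Agent.Helper71.PR.Goals

/-!
# A compact flat contains a chamber element (CHB)
-/

set_option autoImplicit false

namespace Pool.Agent.Helper67.PR

open Pool.Agent.Helper71.PR Matrix

theorem sum_arith (n : ℕ) (c : ℝ) :
    ∑ i : Fin n, c * (((n : ℝ) - 1) / 2 - (i : ℕ)) = 0 := by
  rw [← Finset.mul_sum, Finset.sum_sub_distrib, Finset.sum_const, Finset.card_univ,
    Fintype.card_fin, nsmul_eq_mul]
  have h : ∑ i : Fin n, ((i : ℕ) : ℝ) = (n : ℝ) * (n - 1) / 2 := by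
    rw [Fin.sum_univ_eq_sum_range (fun i => (i : ℝ)) n]
    induction n with
    | zero => simp
    | succ n ih => rw [Finset.sum_range_succ, ih]; push_cast; ring
  rw [h]; ring

theorem chb : G_CHB := by
  intro n hn Γ k hk hF
  obtain ⟨R, hR⟩ := hF
  have hR0 : 0 ≤ R := by
    obtain ⟨γ, _, μ, _, h⟩ := hR (fun _ => 0) (by simp)
    exact (abs_nonneg _).trans (h ⟨0, by omega⟩)
  obtain ⟨γ, hγ, μ, hμ, h⟩ := hR (fun i => (2 * R + 1) * (((n : ℝ) - 1) / 2 - (i : ℕ)))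
    (sum_arith n _)
  have hdet : γ.1.det = 1 := γ.2
  have hk' : IsUnit k.det := isUnit_iff_ne_zero.2 hk
  have hprod : ∏ i, μ i = 1 := by
    rw [hμ, Matrix.det_mul, Matrix.det_mul, Matrix.det_diagonal, Matrix.det_nonsing_inv,
      mul_right_comm, Ring.mul_inverse_cancel _ hk', one_mul] at hdet
    exact hdet
  have hne : ∀ i, μ i ≠ 0 := by
    intro i hi
    rw [Finset.prod_eq_zero (Finset.mem_univ i) hi] at hprod
    exact zero_ne_one hprod
  refine ⟨γ, hγ, μ, ?_, hne⟩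
  have hlt : ∀ i j : Fin n, i < j → |μ j| < |μ i| := by
    intro i j hij
    have h1 := abs_le.1 (h i)
    have h2 := abs_le.1 (h j)
    have h3 : ((i : ℕ) : ℝ) + 1 ≤ ((j : ℕ) : ℝ) := by exact_mod_cast hij
    have h4 : Real.log |μ j| < Real.log |μ i| := by
      have h5 : (2 * R + 1) * (((n : ℝ) - 1) / 2 - ((j : ℕ) : ℝ)) + (2 * R + 1)
          ≤ (2 * R + 1) * (((n : ℝ) - 1) / 2 - ((i : ℕ) : ℝ)) := by
        have : (0 : ℝ) < 2 * R + 1 := by linarith
        nlinarith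
      linarith [h1.1, h1.2, h2.1, h2.2]
    exact (Real.log_lt_log_iff (abs_pos.2 (hne j)) (abs_pos.2 (hne i))).1 h4
  exact ⟨hk, hμ, hlt⟩

end Pool.Agent.Helper67.PR
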